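import Pool.Agent.Helper68.QC.St4

/-!
# PART M of project QD (MP_d112a4_gt), module RP1: the holomorphic lift for one Möbius transformation
-/

open MeasureTheory Set Filter Topology Complex
open scoped ContDiff ComplexConjugate ENNReal

namespace Pool.Agent.Helper47.QCM

open Pool.Agent.Helper68.QC

theorem rp_det (A : SL) : A 0 0 * A 1 1 - A 0 1 * A 1 0 = 1 := by
  have h := A.det_coe
  rwa [Matrix.det_fin_two] at h

theorem rp_ext {A B : SL} (h : (A : Matrix (Fin 2) (Fin 2) ℂ) = B) : A = B := Subtype.ext h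

/-- the finishing argument -/
theorem rp_fin (hITW : StITW) (hSQT : StSQT) (c : ℂ) (r : ℝ) (w : ℂ → (ℂ ≃ₜ ℂ)) (A B₀ : SL)
    (M : ℂ → ℂ → Matrix (Fin 2) (Fin 2) ℂ) (g : ℂ → ℂ) (i₀ j₀ : Fin 2)
    (hM : ∀ t ∈ Metric.ball c r, ∀ B : SL, Intw A B (w t) →
      (B : Matrix (Fin 2) (Fin 2) ℂ) = M t (B i₀ j₀) ∧ (B i₀ j₀) ^ 2 = g t ∧ B i₀ j₀ ≠ 0)
    (hneg : ∀ t x, M t (-x) = - M t x) (hg : DifferentiableOn ℂ g (Metric.ball c r))
    (hdiff : ∀ s : ℂ → ℂ, DifferentiableOn ℂ s (Metric.ball c r) → (∀ t ∈ Metric.ball c r, s t ≠ 0) →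
      ∀ i j, DifferentiableOn ℂ (fun t => M t (s t) i j) (Metric.ball c r))
    (hex : ∀ t ∈ Metric.ball c r, ∃ B : SL, Intw A B (w t)) (h₀ : Intw A B₀ (w c)) (hr : 0 < r) :
    ∃ B : ℂ → SL, B c = B₀ ∧ (∀ i j, DifferentiableOn ℂ (fun t => B t i j) (Metric.ball c r)) ∧
      ∀ t ∈ Metric.ball c r, Intw A (B t) (w t) := by
  have hc : c ∈ Metric.ball c r := Metric.mem_ball_self hr
  have hg0 : ∀ t ∈ Metric.ball c r, g t ≠ 0 := by
    intro t ht
    obtain ⟨B, hB⟩ := hex t ht
    obtain ⟨-, h2, h3⟩ := hM t ht B hB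
    rw [← h2]
    exact pow_ne_zero _ h3
  obtain ⟨s, hs1, hs2, hs3⟩ := hSQT c r g (B₀ i₀ j₀) hr hg hg0 (hM c hc B₀ h₀).2.1
  have hs0 : ∀ t ∈ Metric.ball c r, s t ≠ 0 := by
    intro t ht h0
    apply hg0 t ht
    rw [← hs2 t ht, h0]
    simp
  have hX : ∀ t ∈ Metric.ball c r, ∃ X : SL, (X : Matrix (Fin 2) (Fin 2) ℂ) = M t (s t) ∧ Intw A X (w t) := by
    intro t ht
    obtain ⟨B, hB⟩ := hex t ht
    obtain ⟨h1, h2, h3⟩ := hM t ht B hB
    have h4 : s t ^ 2 = (B i₀ j₀) ^ 2 := by rw [hs2 t ht, h2]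
    rcases sq_eq_sq_iff_eq_or_eq_neg.1 h4 with h5 | h5
    · exact ⟨B, by rw [h5]; exact h1, hB⟩
    · refine ⟨-B, ?_, hITW.2.2 A B (w t) hB⟩
      rw [h5, hneg, ← h1]
      rfl
  classical
  choose X hX1 hX2 using hX
  refine ⟨fun t => if h : t ∈ Metric.ball c r then X t h else B₀, ?_, ?_, ?_⟩
  · change (if h : c ∈ Metric.ball c r then X c h else B₀) = B₀
    rw [dif_pos hc]
    apply rp_ext
    rw [hX1 c hc, hs3]
    exact ((hM c hc B₀ h₀).1).symm
  · intro i j
    refine (hdiff s hs1 hs0 i j).congr fun t ht => ?_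
    change (if h : t ∈ Metric.ball c r then X t h else B₀) i j = _
    rw [dif_pos ht]
    rw [← hX1 t ht]
  · intro t ht
    change Intw A (if h : t ∈ Metric.ball c r then X t h else B₀) (w t)
    rw [dif_pos ht]
    exact hX2 t ht

theorem pRP1 : Pool.Agent.Helper68.QC.StRP1 := by
  intro hEQV hHOL hITW hSQT hEX k hk c r μ hμ hol A B₀ hInv h₀ hr
  have hex : ∀ t ∈ Metric.ball c r, ∃ B : SL, Intw A B (nq (μ t)) := fun t ht =>
    hEQV k hk (μ t) (hμ t ht) A (hInv t ht)
  have hw : ∀ z, DifferentiableOn ℂ (fun t => nq (μ t) z) (Metric.ball c r) :=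
    hHOL k hk (Metric.ball c r) μ Metric.isOpen_ball hμ hol
  have hdetA := rp_det A
  by_cases h10 : A 1 0 = 0
  · have hA11 : A 1 1 ≠ 0 := by
      intro h
      rw [h10, h] at hdetA
      simp at hdetA
    have hden : ∀ z, den A z ≠ 0 := by
      intro z
      unfold den
      rw [h10, zero_mul, zero_add]
      exact hA11
    refine rp_fin hITW hSQT c r (fun t => nq (μ t)) A B₀
      (fun t x => !![x, nq (μ t) (mob A 0) / x; 0, 1 / x])
      (fun t => nq (μ t) (mob A 1) - nq (μ t) (mob A 0)) 0 0 ?_ ?_ ?_ ?_ hex h₀ hr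
    · intro t ht B hB
      have hnq := hEX k hk (μ t) (hμ t ht)
      have hB10 : B 1 0 = 0 := hB.2.2.1.1 h10
      have hdetB := rp_det B
      rw [hB10, mul_zero, sub_zero] at hdetB
      have hB00 : B 0 0 ≠ 0 := left_ne_zero_of_mul (by rw [hdetB]; exact one_ne_zero)
      have hB11 : B 1 1 ≠ 0 := right_ne_zero_of_mul (by rw [hdetB]; exact one_ne_zero)
      have e1 : nq (μ t) (mob A 0) = B 0 1 / B 1 1 := by
        rw [hB.2.1 0 (hden 0), hnq.zero]
        unfold mob den
        rw [mul_zero, mul_zero, zero_add, zero_add]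
      have e2 : nq (μ t) (mob A 1) = (B 0 0 + B 0 1) / B 1 1 := by
        rw [hB.2.1 1 (hden 1), hnq.one]
        unfold mob den
        rw [mul_one, mul_one, hB10, zero_add]
      refine ⟨?_, ?_, hB00⟩
      · ext i j
        fin_cases i <;> fin_cases j
        · rfl
        · change B 0 1 = nq (μ t) (mob A 0) / B 0 0
          rw [e1]
          field_simp
          linear_combination (B 0 1) * hdetB
        · exact hB10
        · change B 1 1 = 1 / B 0 0
          field_simp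
          linear_combination hdetB
      · change B 0 0 ^ 2 = nq (μ t) (mob A 1) - nq (μ t) (mob A 0)
        rw [e1, e2]
        field_simp
        linear_combination (B 0 0) * hdetB
    · intro t x
      ext i j
      fin_cases i <;> fin_cases j <;> simp [div_neg]
    · exact (hw _).sub (hw _)
    · intro s hs hs0 i j
      fin_cases i <;> fin_cases j
      · exact hs
      · exact (hw _).div hs hs0
      · exact differentiableOn_const _
      · exact (differentiableOn_const _).div hs hs0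
  · obtain ⟨e₀, he₀⟩ : ∃ e₀ : ℂ, e₀ = -A 1 1 / A 1 0 := ⟨_, rfl⟩
    have hden0 : den A e₀ = 0 := by
      unfold den
      rw [he₀]
      field_simp
      ring
    obtain ⟨z₀, hz₀⟩ : ∃ z₀ : ℂ, z₀ = e₀ + 1 := ⟨_, rfl⟩
    have hden1 : den A z₀ = A 1 0 := by
      have h := hden0
      unfold den at h ⊢
      rw [hz₀]
      linear_combination h
    have hden1' : den A z₀ ≠ 0 := by rw [hden1]; exact h10
    have hne1 : z₀ ≠ e₀ := by
      rw [hz₀]
      intro h
      have : (1 : ℂ) = 0 := by linear_combination h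
      exact one_ne_zero this
    have hne2 : A 0 0 / A 1 0 ≠ mob A z₀ := by
      intro h
      unfold mob at h
      rw [hden1] at h
      have h2 : A 0 0 = A 0 0 * z₀ + A 0 1 := by
        field_simp at h
        exact h
      rw [hz₀, he₀] at h2
      field_simp at h2
      have h3 : (1 : ℂ) = 0 := by linear_combination h2 - hdetA
      exact one_ne_zero h3
    have hgne : ∀ t, (nq (μ t) (A 0 0 / A 1 0) - nq (μ t) (mob A z₀)) * (nq (μ t) z₀ - nq (μ t) e₀) ≠ 0 := by
      intro t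
      refine mul_ne_zero (sub_ne_zero.2 fun h => hne2 ((nq (μ t)).injective h))
        (sub_ne_zero.2 fun h => hne1 ((nq (μ t)).injective h))
    refine rp_fin hITW hSQT c r (fun t => nq (μ t)) A B₀
      (fun t x => !![nq (μ t) (A 0 0 / A 1 0) * x,
        -(1 + nq (μ t) e₀ * nq (μ t) (A 0 0 / A 1 0) * x ^ 2) / x; x, -(nq (μ t) e₀ * x)])
      (fun t => 1 / ((nq (μ t) (A 0 0 / A 1 0) - nq (μ t) (mob A z₀)) * (nq (μ t) z₀ - nq (μ t) e₀)))
      1 0 ?_ ?_ ?_ ?_ hex h₀ hr
    · intro t ht B hB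
      have hB10 : B 1 0 ≠ 0 := fun h => h10 (hB.2.2.1.2 h)
      have hdetB := rp_det B
      have e1 : B 1 0 * nq (μ t) e₀ + B 1 1 = 0 := (hB.1 e₀).1 hden0
      have e2 : nq (μ t) (A 0 0 / A 1 0) = B 0 0 / B 1 0 := hB.2.2.2 h10
      have e3 : nq (μ t) (mob A z₀) = mob B (nq (μ t) z₀) := hB.2.1 z₀ hden1'
      have e4 : B 1 1 = -(nq (μ t) e₀ * B 1 0) := by linear_combination e1
      have e5 : nq (μ t) z₀ - nq (μ t) e₀ ≠ 0 := sub_ne_zero.2 fun h => hne1 ((nq (μ t)).injective h)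
      have hg := hgne t
      obtain ⟨a, ha⟩ : ∃ a : ℂ, a = nq (μ t) e₀ := ⟨_, rfl⟩
      obtain ⟨ζ, hζ⟩ : ∃ ζ : ℂ, ζ = nq (μ t) z₀ := ⟨_, rfl⟩
      rw [← ha] at e1 e4 e5 hg
      rw [← hζ] at e3 e5 hg
      have e6 : B 1 0 * ζ + B 1 1 ≠ 0 := by
        rw [e4]
        have h : B 1 0 * ζ + -(a * B 1 0) = B 1 0 * (ζ - a) := by ring
        rw [h]
        exact mul_ne_zero hB10 e5
      refine ⟨?_, ?_, hB10⟩
      · ext i j
        fin_cases i <;> fin_cases j
        · change B 0 0 = nq (μ t) (A 0 0 / A 1 0) * B 1 0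
          rw [e2]
          field_simp
        · change B 0 1 = -(1 + nq (μ t) e₀ * nq (μ t) (A 0 0 / A 1 0) * B 1 0 ^ 2) / B 1 0
          rw [e2, ← ha]
          rw [e4] at hdetB
          field_simp
          linear_combination -hdetB
        · rfl
        · change B 1 1 = -(nq (μ t) e₀ * B 1 0)
          rw [← ha]; exact e4
      · change B 1 0 ^ 2 = 1 / ((nq (μ t) (A 0 0 / A 1 0) - nq (μ t) (mob A z₀)) * (nq (μ t) z₀ - nq (μ t) e₀))
        rw [← ha, ← hζ, eq_div_iff hg, e2, e3]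
        unfold mob den
        have h7 : ζ - a = (B 1 0 * ζ + B 1 1) / B 1 0 := by
          rw [e4]; field_simp; ring
        rw [h7]
        field_simp
        linear_combination hdetB
    · intro t x
      ext i j
      fin_cases i <;> fin_cases j <;> simp [div_neg]
    · exact (differentiableOn_const _).div (((hw _).sub (hw _)).mul ((hw _).sub (hw _))) fun t _ => hgne t
    · intro s hs hs0 i j
      fin_cases i <;> fin_cases j
      · exact (hw _).mul hs
      · exact (((differentiableOn_const _).add (((hw _).mul (hw _)).mul (hs.pow 2))).neg).div hs hs0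
      · exact hs
      · exact ((hw _).mul hs).neg

end Pool.Agent.Helper47.QCM
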